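import Pool.Agent.W763.PB.Stm

set_option autoImplicit false

open MeasureTheory Filter Topology
open scoped InnerProductSpace BoundedContinuousFunction

namespace Pool.Agent.W12.PB

open Pool.Agent.W763.PB

lemma step_err (hR1 : S_R1) (k : ℝ) (b m : ℕ) (hk : 2 ≤ k) (hm : 1 ≤ m)
    {H H' : Type} [NormedAddCommGroup H] [InnerProductSpace ℂ H]
    [CompleteSpace H] [NormedAddCommGroup H'] [InnerProductSpace ℂ H'] [CompleteSpace H']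
    (U : H ≃ₗᵢ[ℂ] H) (D : H →L[ℂ] H) (U' : H' ≃ₗᵢ[ℂ] H') (D' : H' →L[ℂ] H') (J : H →ₗᵢ[ℂ] H')
    (h : StepP k b m U D U' D' J) (x : H) :
    ‖U' (J x) - J (U x)‖ ≤ Real.sqrt (2 * k * (1 / (m : ℝ))) * ‖x‖ := by
  have hm' : (1 : ℝ) ≤ m := by exact_mod_cast hm
  have hmpos : (0 : ℝ) < m := by linarith
  have hx1 : (1 : ℝ) / m ≤ 1 := by rw [div_le_one hmpos]; exact hm'
  obtain ⟨-, -, -, hkap, -⟩ := (hR1 k hk).1 (1 / (m : ℝ)) (by positivity) hx1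
  have hc := h.cmp 1 hm (U x) x
  simp only [pow_one, Nat.cast_one] at hc
  have hin : ⟪U x, U x⟫_ℂ = ((‖x‖ ^ 2 : ℝ) : ℂ) := by
    rw [inner_self_eq_norm_sq_to_K, LinearIsometryEquiv.norm_map]
    push_cast
    rfl
  rw [hin] at hc
  have hre : (⟪J (U x), U' (J x)⟫_ℂ).re = kap k (1 / (m : ℝ)) * ‖x‖ ^ 2 := by
    rw [hc, ← Complex.ofReal_mul, Complex.ofReal_re]
  have hsq : ‖U' (J x) - J (U x)‖ ^ 2 ≤ 2 * k * (1 / (m : ℝ)) * ‖x‖ ^ 2 := by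
    have h1 : ‖U' (J x) - J (U x)‖ ^ 2 = ‖J (U x) - U' (J x)‖ ^ 2 := by rw [norm_sub_rev]
    rw [h1, @norm_sub_sq ℂ H' _ _ _ (J (U x)) (U' (J x))]
    have h2 : (RCLike.re ⟪J (U x), U' (J x)⟫_ℂ : ℝ) = kap k (1 / (m : ℝ)) * ‖x‖ ^ 2 := hre
    rw [h2]
    simp only [LinearIsometry.norm_map, LinearIsometryEquiv.norm_map]
    nlinarith [sq_nonneg ‖x‖, mul_le_mul_of_nonneg_right hkap (sq_nonneg ‖x‖)]
  have hnn : 0 ≤ 2 * k * (1 / (m : ℝ)) := by positivity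
  calc ‖U' (J x) - J (U x)‖ = Real.sqrt (‖U' (J x) - J (U x)‖ ^ 2) := by
        rw [Real.sqrt_sq (norm_nonneg _)]
    _ ≤ Real.sqrt (2 * k * (1 / (m : ℝ)) * ‖x‖ ^ 2) := Real.sqrt_le_sqrt hsq
    _ = Real.sqrt (2 * k * (1 / (m : ℝ))) * ‖x‖ := by
        rw [Real.sqrt_mul hnn, Real.sqrt_sq (norm_nonneg _)]

lemma summ (k : ℝ) (b : ℕ) (hk : 2 ≤ k) (hb : (64 : ℝ) ≤ b) :
    Summable (fun l : ℕ => Real.sqrt (2 * k * (1 / ((b ^ l : ℕ) : ℝ)))) := by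
  have hb0 : (0 : ℝ) < b := by linarith
  have e : ∀ l : ℕ, Real.sqrt (2 * k * (1 / ((b ^ l : ℕ) : ℝ))) =
      Real.sqrt (2 * k) * (Real.sqrt (1 / (b : ℝ))) ^ l := by
    intro l
    rw [Real.sqrt_mul (by positivity)]
    congr 1
    have h1 : (1 / ((b ^ l : ℕ) : ℝ)) = (1 / (b : ℝ)) ^ l := by
      push_cast
      rw [one_div, one_div, inv_pow]
    rw [h1, ← Real.sqrt_sq (pow_nonneg (Real.sqrt_nonneg (1 / (b : ℝ))) l)]
    congr 1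
    rw [← pow_mul, mul_comm, pow_mul, Real.sq_sqrt (by positivity)]
  simp_rw [e]
  apply Summable.mul_left
  apply summable_geometric_of_lt_one (Real.sqrt_nonneg _)
  rw [Real.sqrt_lt' one_pos]
  rw [one_pow, div_lt_one hb0]
  linarith

theorem sys (hR1 : S_R1) (hR2 : S_R2) (hT : S_TOWER) (hL1 : S_L1) (hL4 : S_L4) (hL5 : S_L5) :
    S_SYS := by
  intro k b hk hb
  obtain ⟨H, i1, i2, i3, U, D, J, hlev, hstep, hd0, hnz⟩ := hT k b hk hb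
  obtain ⟨E, e1, e2, e3, i, hiJ, hdense⟩ := hL1 H J
  have hb64 : (64 : ℝ) ≤ b := (hR2 k b hk hb).1
  have hb1 : 1 ≤ b := by
    have : (1 : ℝ) ≤ b := by linarith
    exact_mod_cast this
  obtain ⟨UE, hU1, hU2⟩ := hL4 H J E i hiJ hdense U
    (fun l => Real.sqrt (2 * k * (1 / ((b ^ l : ℕ) : ℝ)))) (summ k b hk hb64)
    (fun l x => step_err hR1 k b (b ^ l) hk (Nat.one_le_pow _ _ hb1) _ _ _ _ _ (hstep l) x)
  obtain ⟨DE, hD1, hD2, hD3⟩ := hL5 H J E i hiJ hdense D (Real.sqrt k) (fun l => (hlev l).sa)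
    (fun l => (hlev l).lo) (fun l => (hlev l).up) (fun l => (hstep l).com)
  exact ⟨H, i1, i2, i3, U, D, J, E, e1, e2, e3, i, UE, DE,
    { hk := hk, hb := hb, lev := hlev, step := hstep, d0 := hd0, nz := hnz, iJ := hiJ,
      dense := hdense, ul := hU1, us := hU2, di := hD1, dsa := hD2, dlo := hD3 }⟩

end Pool.Agent.W12.PB
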